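import Pool.Agent.Q256.EC.Stm

set_option autoImplicit false

/-!
# Invariant ideals and superexponential convergence (job IDL of project EC)
-/

namespace Pool.Agent.Q256.EC

open MvPolynomial Topology
open Filter (Tendsto atTop)
open Pool.Agent.H936R2 (pt jac)
open Pool.Agent.Q170.GP (GapP tht Prim Sparse)

theorem idl_norm_attained {ι : Type} [Fintype ι] [Nonempty ι] {E : Type} [NormedRing E]
    (f : ι → E) : ∃ q, ‖f q‖ = ‖f‖ := by
  by_contra hcon
  push Not at hcon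
  have h1 : ∀ q, ‖f q‖ < ‖f‖ := fun q => lt_of_le_of_ne (norm_le_pi_norm f q) (hcon q)
  have h2 : 0 < ‖f‖ := lt_of_le_of_lt (norm_nonneg _) (h1 (Classical.arbitrary ι))
  exact lt_irrefl _ ((pi_norm_lt_iff h2).2 h1)

theorem idl_sum {Sm : Set (ℕ → ℝ)} (hSm : Small Sm) {κ : Type} (s : Finset κ) (f : κ → ℕ → ℝ)
    (hf : ∀ k ∈ s, f k ∈ Sm) : (fun n => ∑ k ∈ s, f k n) ∈ Sm := by
  classical
  induction s using Finset.induction_on with
  | empty => simpa using hSm.zero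
  | insert a s ha ih =>
    have h1 := hSm.add _ (hf a (Finset.mem_insert_self _ _)) _
      (ih fun k hk => hf k (Finset.mem_insert_of_mem hk))
    have h2 : (fun n => ∑ k ∈ insert a s, f k n) = fun n => f a n + ∑ k ∈ s, f k n := by
      funext n
      rw [Finset.sum_insert ha]
    rw [h2]
    exact h1

theorem idl_bound {p : ℕ} [Fact p.Prime] {ι : Type} [Fintype ι] (A : MvPolynomial ι ℚ_[p]) :
    ∃ C : ℝ, 0 ≤ C ∧ ∀ y : ι → ℤ_[p], ‖eval (fun i => (y i : ℚ_[p])) A‖ ≤ C := by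
  refine ⟨∑ d ∈ A.support, ‖A.coeff d‖, Finset.sum_nonneg fun _ _ => norm_nonneg _, fun y => ?_⟩
  rw [eval_eq]
  refine (norm_sum_le _ _).trans (Finset.sum_le_sum fun d _ => ?_)
  rw [norm_mul, norm_prod]
  calc ‖A.coeff d‖ * ∏ i ∈ d.support, ‖(y i : ℚ_[p]) ^ d i‖ ≤ ‖A.coeff d‖ * 1 := by
        gcongr
        refine Finset.prod_le_one (fun _ _ => norm_nonneg _) fun i _ => ?_
        rw [norm_pow]
        exact pow_le_one₀ (norm_nonneg _) (PadicInt.norm_le_one (y i))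
    _ = _ := mul_one _

theorem idl_hom {R ι : Type} [CommRing R] (F : ι → MvPolynomial ι R) (D : ℕ)
    (hF : ∀ i, (F i).IsHomogeneous D) (k : ℕ) (G : MvPolynomial ι R)
    (hG : ∃ e : ℕ, G.IsHomogeneous e) : ∃ e : ℕ, ((bind₁ F)^[k] G).IsHomogeneous e := by
  induction k with
  | zero => exact hG
  | succ k ih =>
    obtain ⟨e, he⟩ := ih
    rw [Function.iterate_succ_apply']
    exact ⟨D * e, he.aeval F hF⟩

theorem idl_map {R R' ι : Type} [CommRing R] [CommRing R'] (φ : R →+* R')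
    (F : ι → MvPolynomial ι R) (k : ℕ) (G : MvPolynomial ι R) :
    map φ ((bind₁ F)^[k] G) = (bind₁ fun i => map φ (F i))^[k] (map φ G) := by
  induction k with
  | zero => rfl
  | succ k ih =>
    rw [Function.iterate_succ_apply', Function.iterate_succ_apply', ← ih, map_bind₁]

theorem idl : S_IPW → S_LOW → S_IDL := by
  intro hipw hlow p _ θ N D m Fp hFp H hH P hP γ Y hγ hYp hYs hlim Sm hSm hHS
  set J : Set (MvPolynomial (Fin (N + 1)) ℤ_[p]) :=
    {G | (∃ e : ℕ, G.IsHomogeneous e) ∧ (fun n => ‖eval (Y n) G‖) ∈ Sm} with hJ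
  have hHJ : H ⊆ J := fun h hh => ⟨hH h hh, hHS h hh⟩
  have hJF : ∀ G ∈ J, (bind₁ Fp)^[m] G ∈ J := by
    intro G hG
    refine ⟨idl_hom Fp D hFp m G hG.1, ?_⟩
    have h1 := hSm.shift _ hG.2
    have h2 : (fun n => ‖eval (Y n) ((bind₁ Fp)^[m] G)‖) = fun n => ‖eval (Y (n + 1)) G‖ := by
      funext n
      rw [Pool.Agent.Q170.GP.eval_bind_iter, hYs]
    rw [h2]
    exact h1
  have hJn : ∀ (n : ℕ), ∀ G ∈ J, (bind₁ Fp)^[m * n] G ∈ J := by
    intro n
    induction n with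
    | zero => exact fun G hG => hG
    | succ n ih =>
      intro G hG
      rw [show m * (n + 1) = m + m * n by ring, Function.iterate_add_apply]
      exact hJF _ (ih G hG)
  have hzero : ∀ x : Fin (N + 1) → ℂ, x ≠ 0 → (∀ G ∈ J, eval x (map (tht θ) G) = 0) →
      ∃ y ∈ P, ∃ c : ℂ, x = c • y := by
    intro x hx hxJ
    refine hP x hx fun n h hh => ?_
    have h1 := hxJ _ (hJn n h (hHJ hh))
    rw [idl_map, Pool.Agent.Q170.GP.eval_bind_iter] at h1
    exact h1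
  obtain ⟨s, e, ψ, hψ, hψ1, hab⟩ := hipw p θ N J γ P hγ hzero
  obtain ⟨c, hc, hev⟩ := hlow p N γ Y hγ hYp hlim s ψ hψ (by rw [hψ1]; exact one_ne_zero)
  have hq : ∀ q : Fin (N + 1) × Fin (N + 1),
      (fun n => ‖Y n q.1 * γ q.2 - Y n q.2 * γ q.1‖ ^ e) ∈ Sm := by
    rintro ⟨a, b⟩
    obtain ⟨M, A, G, hG, hid⟩ := hab a b
    choose B hB0 hB using fun k => idl_bound (A k)
    have h1 : (fun n => ∑ k, B k * ‖eval (Y n) (G k)‖) ∈ Sm :=
      idl_sum hSm Finset.univ _ fun k _ => hSm.smul _ (hG k).2 (B k) (hB0 k)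
    have h2 := hSm.smul _ h1 c⁻¹ (inv_nonneg.2 hc.le)
    refine hSm.dom _ h2 _ (fun n => by positivity) ?_
    filter_upwards [hev] with n hn
    have h3 := congrArg norm (hid (Y n))
    rw [norm_mul, norm_pow, ← PadicInt.norm_def] at h3
    have h4 : ‖∑ k, eval (fun i => (Y n i : ℚ_[p])) (A k) *
        ((eval (Y n) (G k) : ℤ_[p]) : ℚ_[p])‖ ≤ ∑ k, B k * ‖eval (Y n) (G k)‖ := by
      refine (norm_sum_le _ _).trans (Finset.sum_le_sum fun k _ => ?_)
      rw [norm_mul, ← PadicInt.norm_def]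
      gcongr
      exact hB k (Y n)
    rw [← h3] at h4
    rw [inv_mul_eq_div, le_div_iff₀ hc]
    refine le_trans ?_ h4
    gcongr
  refine ⟨e, ?_⟩
  refine hSm.dom _ (idl_sum hSm Finset.univ _ fun q _ => hq q) _
    (fun n => pow_nonneg (norm_nonneg _) _) (Filter.Eventually.of_forall fun n => ?_)
  obtain ⟨q, hq1⟩ := idl_norm_attained
    (fun q : Fin (N + 1) × Fin (N + 1) => Y n q.1 * γ q.2 - Y n q.2 * γ q.1)
  have h5 : dl (Y n) γ = ‖Y n q.1 * γ q.2 - Y n q.2 * γ q.1‖ := hq1.symm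
  rw [h5]
  exact Finset.single_le_sum (f := fun q : Fin (N + 1) × Fin (N + 1) =>
    ‖Y n q.1 * γ q.2 - Y n q.2 * γ q.1‖ ^ e) (fun q _ => by positivity) (Finset.mem_univ q)

end Pool.Agent.Q256.EC
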