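import Pool.Agent.Q256.EC.Stm

set_option autoImplicit false

/-!
# Lower bounds for homogeneous polynomials near a point (job LOW of project EC)
-/

namespace Pool.Agent.Q256.EC

open MvPolynomial Topology
open Filter (Tendsto atTop)
open Pool.Agent.H936R2 (pt jac)
open Pool.Agent.Q170.GP (GapP tht Prim Sparse)

/-- The coordinates of a primitive vector close to `γ`. -/
theorem low_unit {p : ℕ} [Fact p.Prime] {N : ℕ} {γ y : Fin (N + 1) → ℤ_[p]} {i0 : Fin (N + 1)}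
    (hi : ‖γ i0‖ = 1) (hy : y ∈ Prim p (Fin (N + 1))) (hd : dl y γ < 1) : ‖y i0‖ = 1 := by
  obtain ⟨a, ha⟩ := hy
  have ha1 : ‖y a‖ = 1 := PadicInt.isUnit_iff.1 ha
  by_contra hne
  have hlt : ‖y i0‖ < 1 := lt_of_le_of_ne (PadicInt.norm_le_one _) hne
  have h1 : ‖y a * γ i0 - y i0 * γ a‖ ≤ dl y γ :=
    norm_le_pi_norm (fun q : Fin (N + 1) × Fin (N + 1) => y q.1 * γ q.2 - y q.2 * γ q.1) (a, i0)
  have h2 : ‖y i0 * γ a‖ < 1 := by
    rw [norm_mul]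
    calc ‖y i0‖ * ‖γ a‖ ≤ ‖y i0‖ * 1 := by gcongr; exact PadicInt.norm_le_one _
      _ < 1 := by rw [mul_one]; exact hlt
  have h3 : ‖y a * γ i0‖ = 1 := by rw [norm_mul, ha1, hi, mul_one]
  have h4 : ‖y a * γ i0‖ ≤ max ‖y a * γ i0 - y i0 * γ a‖ ‖y i0 * γ a‖ := by
    calc ‖y a * γ i0‖ = ‖(y a * γ i0 - y i0 * γ a) + y i0 * γ a‖ := by rw [sub_add_cancel]
      _ ≤ _ := PadicInt.nonarchimedean _ _
  have h5 : max ‖y a * γ i0 - y i0 * γ a‖ ‖y i0 * γ a‖ < 1 :=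
    max_lt (lt_of_le_of_lt h1 hd) h2
  rw [h3] at h4
  exact absurd h5 (not_lt.2 h4)

theorem low : S_POL → S_LOW := by
  intro hpol p _ N γ Y hγ hY hlim s ψ hψ hψ0
  obtain ⟨i0, hi0⟩ := hγ
  have hi : ‖γ i0‖ = 1 := PadicInt.isUnit_iff.1 hi0
  obtain ⟨-, C, hC, hCl⟩ := hpol ℚ_[p] (Fin (N + 1)) ψ
  set δ : ℝ := ‖eval (fun i => (γ i : ℚ_[p])) ψ‖ with hδ
  have hδ0 : 0 < δ := norm_pos_iff.2 hψ0
  have hle1 : ∀ y : Fin (N + 1) → ℤ_[p], ‖fun i => (y i : ℚ_[p])‖ ≤ 1 := fun y =>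
    (pi_norm_le_iff_of_nonneg zero_le_one).2 fun i => PadicInt.norm_le_one (y i)
  refine ⟨δ / 2, by positivity, ?_⟩
  have hgi : (γ i0 : ℚ_[p]) ≠ 0 := by
    intro h
    have h' : γ i0 = 0 := Subtype.coe_injective h
    rw [h', norm_zero] at hi
    exact zero_ne_one hi
  have hgi1 : ‖(γ i0 : ℚ_[p])‖ = 1 := by rw [← PadicInt.norm_def]; exact hi
  have h1 : ∀ᶠ n in atTop, dl (Y n) γ < 1 := hlim.eventually (gt_mem_nhds one_pos)
  have h2 : ∀ᶠ n in atTop, dl (Y n) γ < δ / (2 * (C + 1)) :=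
    hlim.eventually (gt_mem_nhds (by positivity))
  filter_upwards [h1, h2] with n hn1 hn2
  have hu : ‖Y n i0‖ = 1 := low_unit hi (hY n) hn1
  set c : ℚ_[p] := (Y n i0 : ℚ_[p]) / (γ i0 : ℚ_[p]) with hc
  have hc1 : ‖c‖ = 1 := by
    rw [hc, norm_div, hgi1, div_one, ← PadicInt.norm_def, hu]
  have hx : ‖(fun i => (Y n i : ℚ_[p])) - fun i => c * (γ i : ℚ_[p])‖ ≤ dl (Y n) γ := by
    refine (pi_norm_le_iff_of_nonneg (norm_nonneg _)).2 fun a => ?_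
    have e1 : ((fun i => (Y n i : ℚ_[p])) - fun i => c * (γ i : ℚ_[p])) a =
        ((Y n a * γ i0 - Y n i0 * γ a : ℤ_[p]) : ℚ_[p]) / (γ i0 : ℚ_[p]) := by
      rw [Pi.sub_apply, hc]
      push_cast
      field_simp
    rw [e1, norm_div, hgi1, div_one, ← PadicInt.norm_def]
    exact norm_le_pi_norm
      (fun q : Fin (N + 1) × Fin (N + 1) => Y n q.1 * γ q.2 - Y n q.2 * γ q.1) (a, i0)
  have hcg : ‖fun i => c * (γ i : ℚ_[p])‖ ≤ 1 := by
    refine (pi_norm_le_iff_of_nonneg zero_le_one).2 fun i => ?_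
    rw [norm_mul, hc1, one_mul]
    exact PadicInt.norm_le_one (γ i)
  have h3 := hCl _ _ (hle1 (Y n)) hcg
  have h4 : ‖eval (fun i => c * (γ i : ℚ_[p])) ψ‖ = δ := by
    rw [Pool.Agent.H936R2.eval_scale ψ s hψ c, norm_mul, norm_pow, hc1, one_pow, one_mul]
  have h5 : ‖eval (fun i => c * (γ i : ℚ_[p])) ψ‖ -
      ‖eval (fun i => (Y n i : ℚ_[p])) ψ‖ ≤
      ‖eval (fun i => (Y n i : ℚ_[p])) ψ - eval (fun i => c * (γ i : ℚ_[p])) ψ‖ := by
    rw [norm_sub_rev]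
    exact norm_sub_norm_le _ _
  have h6 : C * ‖(fun i => (Y n i : ℚ_[p])) - fun i => c * (γ i : ℚ_[p])‖ ≤ δ / 2 := by
    calc C * ‖(fun i => (Y n i : ℚ_[p])) - fun i => c * (γ i : ℚ_[p])‖
        ≤ (C + 1) * (δ / (2 * (C + 1))) := by
          gcongr
          · linarith
          · exact hx.trans hn2.le
      _ = δ / 2 := by field_simp
  rw [h4] at h5
  linarith

end Pool.Agent.Q256.EC
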